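import Pool.Agent.Helper42.QD.Stmts

namespace Pool.Agent.Helper42.QD

theorem ft_trace {ι : Type} [Fintype ι] [DecidableEq ι] (A : (ι → ℂ) →ₗ[ℂ] (ι → ℂ)) :
    LinearMap.trace ℂ (ι → ℂ) A = ∑ y, A (Pi.single y 1) y := by
  rw [LinearMap.trace_eq_matrix_trace ℂ (Pi.basisFun ℂ ι) A, Matrix.trace]
  refine Finset.sum_congr rfl fun y _ => ?_
  rw [Matrix.diag_apply, LinearMap.toMatrix_apply, Pi.basisFun_apply, Pi.basisFun_repr]

theorem ft_tt {E : Type} [Field E] [Fintype E] [DecidableEq E] (c : FD E) (y : Eˣ) :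
    tu c.tau (tu c.tau y) = y := by
  refine Units.ext ?_
  show c.tau (c.tau (y : E)) = y
  exact c.tau2 _

theorem ft_single {E : Type} [Field E] [Fintype E] [DecidableEq E] (c : FD E) (x y : Eˣ) :
    (Pi.single y (1 : ℂ) : Eˣ → ℂ) (tu c.tau x) = if x = tu c.tau y then 1 else 0 := by
  rw [Pi.single_apply]
  by_cases h : x = tu c.tau y
  · rw [if_pos h, if_pos]
    rw [h, ft_tt]
  · rw [if_neg h, if_neg]
    intro h1
    apply h
    rw [← h1, ft_tt]

theorem st_FT : ST_FT := by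
  intro E _ _ _ c j hj hom
  refine ⟨fun b t => ?_, fun z => ?_, fun g h => ?_⟩
  · unfold ttr TT
    rw [ft_trace]
    refine Finset.sum_congr rfl fun y _ => ?_
    rw [LinearMap.comp_apply, map_mul, map_mul]
    show c.rho (nn b) (c.rho (dg (t : E) 1) (c.rho (ww E) (Fop c.tau (Pi.single y 1)))) y = _
    have h1 := c.rt t 1 (c.rho (ww E) (Fop c.tau (Pi.single y 1))) y
    rw [Units.val_one] at h1
    rw [c.rn, h1, hj, map_one, Units.val_one, one_mul]
    have h2 : ∑ x, j (1⁻¹ * y * t * x) * ((c.om x : ℂ))⁻¹ * Fop c.tau (Pi.single y 1) x =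
        j (y * tu c.tau y * t) * ((c.om y : ℂ))⁻¹ := by
      rw [Finset.sum_eq_single (tu c.tau y)]
      · have h3 : Fop c.tau (Pi.single y 1) (tu c.tau y) = 1 := by
          show (Pi.single y (1 : ℂ) : Eˣ → ℂ) (tu c.tau (tu c.tau y)) = 1
          rw [ft_single, if_pos rfl]
        rw [h3, hom, mul_one, inv_one, one_mul, mul_right_comm y t]
      · intro x _ hx
        have h3 : Fop c.tau (Pi.single y 1) x = 0 := by
          show (Pi.single y (1 : ℂ) : Eˣ → ℂ) (tu c.tau x) = 0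
          rw [ft_single, if_neg hx]
        rw [h3, mul_zero]
      · intro h
        exact absurd (Finset.mem_univ _) h
    rw [h2]
    ring
  · unfold ttr
    rw [ft_trace]
    have h1 : ∀ y : Eˣ, (c.rho (dg (z : E) (z : E)) ∘ₗ Fop c.tau) (Pi.single y 1) y =
        if tu c.tau y = y then (c.om z : ℂ) else 0 := by
      intro y
      rw [LinearMap.comp_apply, c.rt]
      have h2 : z⁻¹ * y * z = y := by
        rw [mul_comm z⁻¹ y, inv_mul_cancel_right]
      rw [h2]
      show (c.om z : ℂ) * (Pi.single y (1 : ℂ) : Eˣ → ℂ) (tu c.tau y) = _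
      rw [ft_single]
      by_cases h : tu c.tau y = y
      · rw [if_pos h, if_pos h.symm, mul_one]
      · rw [if_neg h, if_neg (fun h' => h h'.symm), mul_zero]
    rw [Finset.sum_congr rfl fun y _ => h1 y, ← Finset.sum_filter, Finset.sum_const, nsmul_eq_mul, mul_comm]
  · unfold ttr
    have hF : ∀ g : G2 E, c.rho (gmap c.tau g) ∘ₗ Fop c.tau = Fop c.tau ∘ₗ c.rho g := by
      intro g
      refine LinearMap.ext fun f => ?_
      funext x
      exact c.rF g f x
    have h1 : c.rho ((gmap c.tau h)⁻¹) ∘ₗ Fop c.tau = Fop c.tau ∘ₗ c.rho h⁻¹ := by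
      rw [← map_inv (gmap c.tau) h]
      exact hF h⁻¹
    rw [map_mul, map_mul]
    have h2 : (c.rho h * c.rho g * c.rho (gmap c.tau h)⁻¹) ∘ₗ Fop c.tau =
        c.rho h * (c.rho g * (Fop c.tau * c.rho h⁻¹)) := by
      have h3 : c.rho (gmap c.tau h)⁻¹ * Fop c.tau = Fop c.tau * c.rho h⁻¹ := h1
      show (c.rho h * c.rho g * c.rho (gmap c.tau h)⁻¹) * Fop c.tau = _
      rw [mul_assoc, h3, mul_assoc]
    rw [h2, LinearMap.trace_mul_comm]
    have h4 : c.rho g * (Fop c.tau * c.rho h⁻¹) * c.rho h = c.rho g ∘ₗ Fop c.tau := by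
      rw [mul_assoc, mul_assoc, ← map_mul, inv_mul_cancel, map_one, mul_one]
      rfl
    rw [h4]

end Pool.Agent.Helper42.QD
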